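import Pool.Agent.H181R3.Mink.Geo

/-!
Configurations of coloured null lines: the first order consequences of the modal axioms.
-/

set_option autoImplicit false

namespace Pool.Agent.H181R3.Mink

variable {n : ℕ}

/-- The axioms on four colours `c 0, …, c 3`; the points with all four colours are the centres. -/
structure Cfg (c : Fin 4 → Set (Fin (n + 1) → ℝ)) : Prop where
  up : ∀ i x, x ∈ c i → ∃ y ∈ c i, Lt x y
  dn : ∀ i x, x ∈ c i → ∃ y ∈ c i, Lt y x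
  conv : ∀ i x y z, x ∈ c i → z ∈ c i → Lt x y → Lt y z → y ∈ c i
  meet : ∀ i j, i ≠ j → ∀ x, x ∈ c i → x ∈ c j → ∀ k, x ∈ c k
  anti : ∀ x y, (∀ k, x ∈ c k) → (∀ k, y ∈ c k) → ¬ Lt x y
  near : ∀ i x, x ∈ c i → (∀ k, x ∈ c k) ∨ (∃ o, (∀ k, o ∈ c k) ∧ Lt o x) ∨
    (∃ o, (∀ k, o ∈ c k) ∧ Lt x o)
  clU : ∀ i x, x ∉ c i → (∃ u ∈ c i, Lt u x ∧ ∃ o, (∀ k, o ∈ c k) ∧ Lt o u) →
    ∃ w, Lt w x ∧ (∃ u ∈ c i, Lt u w ∧ ∃ o, (∀ k, o ∈ c k) ∧ Lt o u) ∧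
      (∃ u ∈ c (i + 1), Lt u w ∧ ∃ o, (∀ k, o ∈ c k) ∧ Lt o u)
  clD : ∀ i x, x ∉ c i → (∃ u ∈ c i, Lt x u ∧ ∃ o, (∀ k, o ∈ c k) ∧ Lt u o) →
    ∃ w, Lt x w ∧ (∃ u ∈ c i, Lt w u ∧ ∃ o, (∀ k, o ∈ c k) ∧ Lt u o) ∧
      (∃ u ∈ c (i + 1), Lt w u ∧ ∃ o, (∀ k, o ∈ c k) ∧ Lt u o)

theorem Lt_neg_right {x y : Fin (n + 1) → ℝ} : Lt x (-y) ↔ Lt y (-x) := by
  rw [← Lt_neg (x := x) (y := -y), neg_neg]

theorem Lt_neg_left {x y : Fin (n + 1) → ℝ} : Lt (-x) y ↔ Lt (-y) x := by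
  rw [← Lt_neg (x := -x) (y := y), neg_neg]

variable {c : Fin 4 → Set (Fin (n + 1) → ℝ)}

theorem Cfg.neg (h : Cfg c) : Cfg (fun i => {x | -x ∈ c i}) := by
  constructor
  · intro i x hx
    obtain ⟨y, hy, hlt⟩ := h.dn i _ hx
    exact ⟨-y, by simpa using hy, Lt_neg_right.2 hlt⟩
  · intro i x hx
    obtain ⟨y, hy, hlt⟩ := h.up i _ hx
    exact ⟨-y, by simpa using hy, Lt_neg_left.2 hlt⟩
  · intro i x y z hx hz hxy hyz
    exact h.conv i (-z) (-y) (-x) hz hx (Lt_neg.2 hyz) (Lt_neg.2 hxy)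
  · intro i j hij x hx hx' k
    exact h.meet i j hij _ hx hx' k
  · intro x y hx hy hxy
    exact h.anti (-y) (-x) hy hx (Lt_neg.2 hxy)
  · intro i x hx
    rcases h.near i _ hx with h1 | ⟨o, ho, hlt⟩ | ⟨o, ho, hlt⟩
    · exact Or.inl h1
    · exact Or.inr (Or.inr ⟨-o, fun k => by simpa using ho k, Lt_neg_right.2 hlt⟩)
    · exact Or.inr (Or.inl ⟨-o, fun k => by simpa using ho k, Lt_neg_left.2 hlt⟩)
  · rintro i x hx ⟨u, hu, hux, o, ho, hou⟩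
    obtain ⟨w, hw, ⟨u1, hu1, h1, o1, ho1, h2⟩, u2, hu2, h3, o2, ho2, h4⟩ :=
      h.clD i (-x) hx ⟨-u, hu, Lt_neg.2 hux, -o, ho, Lt_neg.2 hou⟩
    refine ⟨-w, Lt_neg_left.2 hw, ⟨-u1, by simpa using hu1, Lt_neg.2 h1, -o1,
      fun k => by simpa using ho1 k, Lt_neg.2 h2⟩, -u2, by simpa using hu2, Lt_neg.2 h3, -o2,
      fun k => by simpa using ho2 k, Lt_neg.2 h4⟩
  · rintro i x hx ⟨u, hu, hux, o, ho, hou⟩
    obtain ⟨w, hw, ⟨u1, hu1, h1, o1, ho1, h2⟩, u2, hu2, h3, o2, ho2, h4⟩ :=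
      h.clU i (-x) hx ⟨-u, hu, Lt_neg.2 hux, -o, ho, Lt_neg.2 hou⟩
    refine ⟨-w, Lt_neg_right.2 hw, ⟨-u1, by simpa using hu1, Lt_neg.2 h1, -o1,
      fun k => by simpa using ho1 k, Lt_neg.2 h2⟩, -u2, by simpa using hu2, Lt_neg.2 h3, -o2,
      fun k => by simpa using ho2 k, Lt_neg.2 h4⟩

theorem succ_ne (i : Fin 4) : i ≠ i + 1 := by
  fin_cases i <;> decide

/-- `Lt x (x + s • v)` -/
theorem Lt_add {x v : Fin (n + 1) → ℝ} (hv : J v) (hv0 : v ≠ 0) {s : ℝ} (hs : 0 < s) :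
    Lt x (x + s • v) := by
  refine ⟨fun h => ?_, ?_⟩
  · have h1 : s • v = 0 := by
      have := congrArg (fun z => z - x) h
      simpa using this.symm
    rcases smul_eq_zero.1 h1 with h2 | h2
    · exact hs.ne' h2
    · exact hv0 h2
  · rw [add_sub_cancel_left]
    exact J_smul hv hs.le

theorem Lt_ray {x v : Fin (n + 1) → ℝ} (hv : J v) (hv0 : v ≠ 0) {s t : ℝ} (hs : s < t) :
    Lt (x + s • v) (x + t • v) := by
  have h := Lt_add (x := x + s • v) hv hv0 (sub_pos.2 hs)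
  rwa [add_assoc, ← add_smul, add_sub_cancel] at h

/-- points of a colour above a centre are null above it -/
theorem Cfg.nullU (h : Cfg c) {o u : Fin (n + 1) → ℝ} {i : Fin 4} (ho : ∀ k, o ∈ c k)
    (hu : u ∈ c i) : ¬ T (u - o) := by
  intro hT
  obtain ⟨u', hu', hlt⟩ := h.up (i + 1) o (ho _)
  obtain ⟨ε, he0, he1, hpush⟩ := T_push hT (u' - o)
  have h1 := hpush ε he0.le le_rfl
  have hv0 : u' - o ≠ 0 := sub_ne_zero.2 hlt.1.symm
  have e1 : u - o - ε • (u' - o) = u - (o + ε • (u' - o)) := by abel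
  rw [e1] at h1
  have h2 : Lt o (o + ε • (u' - o)) := Lt_add hlt.2 hv0 he0
  have h3 : Lt (o + ε • (u' - o)) u' := by
    have := Lt_ray (x := o) hlt.2 hv0 he1
    rwa [one_smul, add_sub_cancel] at this
  have h4 := h.conv i _ _ _ (ho i) hu h2 (Lt_of_T h1)
  have h5 := h.conv (i + 1) _ _ _ (ho _) hu' h2 h3
  exact h.anti _ _ ho (h.meet i (i + 1) (succ_ne i) _ h4 h5) h2

theorem Cfg.nullD (h : Cfg c) {o u : Fin (n + 1) → ℝ} {i : Fin 4} (ho : ∀ k, o ∈ c k)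
    (hu : u ∈ c i) : ¬ T (o - u) := by
  have := h.neg.nullU (o := -o) (u := -u) (i := i) (fun k => by simpa using ho k)
    (by simpa using hu)
  rwa [neg_sub_neg] at this

/-- a colour has no timelike related points -/
theorem Cfg.nt (h : Cfg c) {x y : Fin (n + 1) → ℝ} {i : Fin 4} (hx : x ∈ c i)
    (hy : y ∈ c i) : ¬ T (y - x) := by
  intro hT
  have key : ∀ a b : Fin (n + 1) → ℝ, T (b - a) →
      T (((1 / 2 : ℝ) • (a + b)) - a) ∧ T (b - ((1 / 2 : ℝ) • (a + b))) := by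
    intro a b hab
    have h1 : (1 / 2 : ℝ) • (a + b) - a = (1 / 2 : ℝ) • (b - a) := by
      ext k; simp only [Pi.sub_apply, Pi.smul_apply, Pi.add_apply, smul_eq_mul]; ring
    have h2 : b - (1 / 2 : ℝ) • (a + b) = (1 / 2 : ℝ) • (b - a) := by
      ext k; simp only [Pi.sub_apply, Pi.smul_apply, Pi.add_apply, smul_eq_mul]; ring
    rw [h1, h2]
    exact ⟨T_smul hab (by norm_num), T_smul hab (by norm_num)⟩
  obtain ⟨h1, h2⟩ := key x y hT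
  set z := (1 / 2 : ℝ) • (x + y) with hz
  have hzc := h.conv i x z y hx hy (Lt_of_T h1) (Lt_of_T h2)
  rcases h.near i z hzc with h3 | ⟨o, ho, hlt⟩ | ⟨o, ho, hlt⟩
  · exact h.nullU h3 hy h2
  · obtain ⟨h4, h5⟩ := key z y h2
    have hc := h.conv i z _ y hzc hy (Lt_of_T h4) (Lt_of_T h5)
    apply h.nullU ho hc
    have e : (1 / 2 : ℝ) • (z + y) - o = ((1 / 2 : ℝ) • (z + y) - z) + (z - o) := by abel
    rw [e]
    exact T_add h4 hlt.2
  · obtain ⟨h4, h5⟩ := key x z h1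
    have hc := h.conv i x _ z hx hzc (Lt_of_T h4) (Lt_of_T h5)
    apply h.nullD ho hc
    have e : o - (1 / 2 : ℝ) • (x + z) = (o - z) + (z - (1 / 2 : ℝ) • (x + z)) := by abel
    rw [e]
    exact T_add' hlt.2 h5

/-- three points in order whose ends are not timelike related are on a null line -/
theorem collinear {x y z : Fin (n + 1) → ℝ} (h1 : Lt x y) (h2 : Lt y z) (h : ¬ T (z - x)) :
    B (y - x) (y - x) = 0 ∧ ∃ s : ℝ, 0 < s ∧ z - y = s • (y - x) := by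
  have e : z - x = (y - x) + (z - y) := by abel
  rw [e] at h
  have hx : y - x ≠ 0 := sub_ne_zero.2 h1.1.symm
  have hy : z - y ≠ 0 := sub_ne_zero.2 h2.1.symm
  obtain ⟨h3, h4, h5⟩ := sum_null h1.2 h2.2 hx hy h
  rw [B_comm] at h5
  refine ⟨h3, _, div_pos (J_pos h2.2 hy) (J_pos h1.2 hx), parallel h2.2 h1.2 hx h5⟩

end Pool.Agent.H181R3.Mink
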