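import Pool.Agent.H181R3.Mink.Cfg

/-!
The temporal formula.
-/

set_option autoImplicit false

namespace Pool.Agent.H181R3.Mink

/-- temporal formulas -/
inductive Fm : Type
  | atom : ℕ → Fm
  | neg : Fm → Fm
  | and : Fm → Fm → Fm
  | fut : Fm → Fm
  | pst : Fm → Fm

variable {n : ℕ}

/-- the set of points at which a formula is true -/
def ev (v : ℕ → Set (Fin (n + 1) → ℝ)) : Fm → Set (Fin (n + 1) → ℝ)
  | Fm.atom k => v k
  | Fm.neg a => (ev v a)ᶜ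
  | Fm.and a b => ev v a ∩ ev v b
  | Fm.fut a => {x | ∃ y ∈ ev v a, x ≠ y ∧ x 0 ≤ y 0 ∧
      ∑ i : Fin n, (y i.succ - x i.succ) ^ 2 ≤ (y 0 - x 0) ^ 2}
  | Fm.pst a => {x | ∃ y ∈ ev v a, y ≠ x ∧ y 0 ≤ x 0 ∧
      ∑ i : Fin n, (x i.succ - y i.succ) ^ 2 ≤ (x 0 - y 0) ^ 2}

theorem Lt_iff (x y : Fin (n + 1) → ℝ) : Lt x y ↔ x ≠ y ∧ x 0 ≤ y 0 ∧
    ∑ i : Fin n, (y i.succ - x i.succ) ^ 2 ≤ (y 0 - x 0) ^ 2 := by
  simp only [Lt, J, B_self, Pi.sub_apply, sub_nonneg]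

variable (v : ℕ → Set (Fin (n + 1) → ℝ))

theorem mem_atom (k : ℕ) (x : Fin (n + 1) → ℝ) : x ∈ ev v (Fm.atom k) ↔ x ∈ v k := Iff.rfl

theorem mem_neg (a : Fm) (x : Fin (n + 1) → ℝ) : x ∈ ev v (Fm.neg a) ↔ x ∉ ev v a := Iff.rfl

theorem mem_and (a b : Fm) (x : Fin (n + 1) → ℝ) :
    x ∈ ev v (Fm.and a b) ↔ x ∈ ev v a ∧ x ∈ ev v b := Iff.rfl

theorem mem_fut (a : Fm) (x : Fin (n + 1) → ℝ) :
    x ∈ ev v (Fm.fut a) ↔ ∃ y ∈ ev v a, Lt x y := by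
  simp only [Lt_iff]
  exact Iff.rfl

theorem mem_pst (a : Fm) (x : Fin (n + 1) → ℝ) :
    x ∈ ev v (Fm.pst a) ↔ ∃ y ∈ ev v a, Lt y x := by
  simp only [Lt_iff]
  exact Iff.rfl

/-- implication -/
def Fm.imp (a b : Fm) : Fm := Fm.neg (Fm.and a (Fm.neg b))

theorem mem_imp (a b : Fm) (x : Fin (n + 1) → ℝ) :
    x ∈ ev v (Fm.imp a b) ↔ (x ∈ ev v a → x ∈ ev v b) := by
  rw [Fm.imp, mem_neg, mem_and, mem_neg, not_and, not_not]

/-- disjunction -/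
def Fm.or (a b : Fm) : Fm := Fm.neg (Fm.and (Fm.neg a) (Fm.neg b))

theorem mem_or (a b : Fm) (x : Fin (n + 1) → ℝ) :
    x ∈ ev v (Fm.or a b) ↔ (x ∈ ev v a ∨ x ∈ ev v b) := by
  rw [Fm.or, mem_neg, mem_and, mem_neg, mem_neg]; tauto

/-- truth -/
def Fm.top : Fm := Fm.imp (Fm.atom 0) (Fm.atom 0)

theorem mem_top (x : Fin (n + 1) → ℝ) : x ∈ ev v Fm.top := by
  rw [Fm.top, mem_imp]; exact id

/-- somewhere -/
def Fm.smw (a : Fm) : Fm := Fm.pst (Fm.fut a)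

theorem common_past (x y : Fin (n + 1) → ℝ) : ∃ z, Lt z x ∧ Lt z y := by
  let e : Fin (n + 1) → ℝ := Fin.cons 1 fun _ => 0
  have he : T e := by
    refine ⟨one_pos, ?_⟩
    rw [B_self]
    simp [e]
  obtain ⟨ε, he0, _, h1⟩ := T_push he (-x)
  obtain ⟨η, hη0, _, h2⟩ := T_push he (-y)
  set δ := min ε η with hδ
  have hδ0 : 0 < δ := by positivity
  have key : ∀ t : Fin (n + 1) → ℝ, T (e - δ • (-t)) → Lt (-(δ⁻¹ • e)) t := by
    intro t ht
    apply Lt_of_T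
    have e1 : t - -(δ⁻¹ • e) = δ⁻¹ • (e - δ • (-t)) := by
      rw [smul_neg, sub_neg_eq_add, sub_neg_eq_add, smul_add, smul_smul, inv_mul_cancel₀ hδ0.ne',
        one_smul]
      abel
    rw [e1]
    exact T_smul ht (inv_pos.2 hδ0)
  exact ⟨-(δ⁻¹ • e), key x (h1 δ hδ0.le (min_le_left _ _)),
    key y (h2 δ hδ0.le (min_le_right _ _))⟩

theorem mem_smw (a : Fm) (x : Fin (n + 1) → ℝ) :
    x ∈ ev v (Fm.smw a) ↔ ∃ y, y ∈ ev v a := by
  rw [Fm.smw, mem_pst]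
  constructor
  · rintro ⟨z, hz, _⟩
    rw [mem_fut] at hz
    obtain ⟨y, hy, _⟩ := hz
    exact ⟨y, hy⟩
  · rintro ⟨y, hy⟩
    obtain ⟨z, h1, h2⟩ := common_past x y
    refine ⟨z, ?_, h1⟩
    rw [mem_fut]
    exact ⟨y, hy, h2⟩

/-- everywhere -/
def Fm.evw (a : Fm) : Fm := Fm.neg (Fm.smw (Fm.neg a))

theorem mem_evw (a : Fm) (x : Fin (n + 1) → ℝ) :
    x ∈ ev v (Fm.evw a) ↔ ∀ y, y ∈ ev v a := by
  rw [Fm.evw, mem_neg, mem_smw]
  simp only [mem_neg, not_exists, not_not]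

/-- conjunction of four formulas -/
def all4 (f : Fin 4 → Fm) : Fm := Fm.and (f 0) (Fm.and (f 1) (Fm.and (f 2) (f 3)))

theorem mem_all4 (f : Fin 4 → Fm) (x : Fin (n + 1) → ℝ) :
    x ∈ ev v (all4 f) ↔ ∀ i, x ∈ ev v (f i) := by
  rw [all4, mem_and, mem_and, mem_and]
  constructor
  · rintro ⟨h0, h1, h2, h3⟩ i
    fin_cases i
    · exact h0
    · exact h1
    · exact h2
    · exact h3
  · intro h
    exact ⟨h 0, h 1, h 2, h 3⟩

/-- conjunction over a truth value -/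
def allB (f : Bool → Fm) : Fm := Fm.and (f true) (f false)

theorem mem_allB (f : Bool → Fm) (x : Fin (n + 1) → ℝ) :
    x ∈ ev v (allB f) ↔ ∀ b, x ∈ ev v (f b) := by
  rw [allB, mem_and]
  constructor
  · rintro ⟨h0, h1⟩ b
    cases b
    · exact h1
    · exact h0
  · intro h
    exact ⟨h true, h false⟩

/-- colour `i` -/
def col (i : Fin 4) : Fm := Fm.atom i.val

/-- the centre -/
def ctr : Fm := all4 col

theorem mem_ctr (x : Fin (n + 1) → ℝ) : x ∈ ev v ctr ↔ ∀ k : Fin 4, x ∈ v k.val := by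
  rw [ctr, mem_all4]; exact Iff.rfl

/-- points of colour `i` above a centre -/
def cu (i : Fin 4) : Fm := Fm.and (col i) (Fm.pst ctr)

/-- points of colour `i` below a centre -/
def cd (i : Fin 4) : Fm := Fm.and (col i) (Fm.fut ctr)

/-- the axioms -/
def ax : Fm :=
  Fm.and (all4 fun i => Fm.imp (col i) (Fm.fut (col i)))
  (Fm.and (all4 fun i => Fm.imp (col i) (Fm.pst (col i)))
  (Fm.and (all4 fun i => Fm.imp (Fm.and (Fm.pst (col i)) (Fm.fut (col i))) (col i))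
  (Fm.and (all4 fun i => all4 fun j =>
    if i = j then Fm.top else Fm.imp (Fm.and (col i) (col j)) ctr)
  (Fm.and (Fm.imp ctr (Fm.neg (Fm.fut ctr)))
  (Fm.and (all4 fun i => Fm.imp (col i) (Fm.or ctr (Fm.or (Fm.pst ctr) (Fm.fut ctr))))
  (Fm.and (all4 fun i => Fm.imp (Fm.and (Fm.neg (col i)) (Fm.pst (cu i)))
    (Fm.pst (Fm.and (Fm.pst (cu i)) (Fm.pst (cu (i + 1))))))
  (all4 fun i => Fm.imp (Fm.and (Fm.neg (col i)) (Fm.fut (cd i)))
    (Fm.fut (Fm.and (Fm.fut (cd i)) (Fm.fut (cd (i + 1))))))))))))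

/-- the sign patterns -/
def pat : Fm :=
  allB fun a => allB fun b => allB fun c => allB fun d =>
    Fm.smw (all4 fun i => Fm.and (Fm.neg (col i))
      (if (![a, b, c, d] : Fin 4 → Bool) i = true then Fm.pst (col i) else Fm.fut (col i)))

/-- the distinguishing formula -/
def main : Fm := Fm.and (Fm.smw ctr) (Fm.and (Fm.evw ax) pat)

/-- the colouring of a valuation -/
def colours (v : ℕ → Set (Fin (n + 1) → ℝ)) (i : Fin 4) : Set (Fin (n + 1) → ℝ) := v i.val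

theorem mem_cu (i : Fin 4) (u : Fin (n + 1) → ℝ) : u ∈ ev v (cu i) ↔
    u ∈ colours v i ∧ ∃ o, (∀ k, o ∈ colours v k) ∧ Lt o u := by
  rw [cu, mem_and, mem_pst]
  simp only [mem_ctr]
  exact Iff.rfl

theorem mem_cd (i : Fin 4) (u : Fin (n + 1) → ℝ) : u ∈ ev v (cd i) ↔
    u ∈ colours v i ∧ ∃ o, (∀ k, o ∈ colours v k) ∧ Lt u o := by
  rw [cd, mem_and, mem_fut]
  simp only [mem_ctr]
  exact Iff.rfl

theorem mem_pst_cu (i : Fin 4) (w : Fin (n + 1) → ℝ) : w ∈ ev v (Fm.pst (cu i)) ↔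
    ∃ u ∈ colours v i, Lt u w ∧ ∃ o, (∀ k, o ∈ colours v k) ∧ Lt o u := by
  rw [mem_pst]
  simp only [mem_cu]
  constructor
  · rintro ⟨u, ⟨h1, h2⟩, h3⟩
    exact ⟨u, h1, h3, h2⟩
  · rintro ⟨u, h1, h3, h2⟩
    exact ⟨u, ⟨h1, h2⟩, h3⟩

theorem mem_fut_cd (i : Fin 4) (w : Fin (n + 1) → ℝ) : w ∈ ev v (Fm.fut (cd i)) ↔
    ∃ u ∈ colours v i, Lt w u ∧ ∃ o, (∀ k, o ∈ colours v k) ∧ Lt u o := by
  rw [mem_fut]
  simp only [mem_cd]
  constructor
  · rintro ⟨u, ⟨h1, h2⟩, h3⟩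
    exact ⟨u, h1, h3, h2⟩
  · rintro ⟨u, h1, h3, h2⟩
    exact ⟨u, ⟨h1, h2⟩, h3⟩

theorem ax_iff : (∀ x, x ∈ ev v ax) ↔ Cfg (colours v) := by
  simp only [ax, mem_and, mem_all4, mem_imp, mem_or, mem_neg, mem_pst_cu, mem_fut_cd]
  constructor
  · intro h
    constructor
    · intro i x hx
      have := (h x).1 i hx
      rwa [mem_fut] at this
    · intro i x hx
      have := (h x).2.1 i hx
      rwa [mem_pst] at this
    · intro i x y z hx hz hxy hyz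
      refine (h y).2.2.1 i ⟨?_, ?_⟩
      · rw [mem_pst]; exact ⟨x, hx, hxy⟩
      · rw [mem_fut]; exact ⟨z, hz, hyz⟩
    · intro i j hij x hx hx'
      have := (h x).2.2.2.1 i j
      rw [if_neg hij, mem_imp, mem_ctr] at this
      exact this ⟨hx, hx'⟩
    · intro x y hx hy hxy
      apply (h x).2.2.2.2.1 ((mem_ctr v x).2 hx)
      rw [mem_fut]
      exact ⟨y, (mem_ctr v y).2 hy, hxy⟩
    · intro i x hx
      have := (h x).2.2.2.2.2.1 i hx
      rw [mem_ctr, mem_pst, mem_fut] at this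
      simp only [mem_ctr] at this
      exact this
    · intro i x hx hu
      have := (h x).2.2.2.2.2.2.1 i ⟨hx, hu⟩
      rw [mem_pst] at this
      obtain ⟨w, hw, hwx⟩ := this
      rw [mem_and, mem_pst_cu, mem_pst_cu] at hw
      exact ⟨w, hwx, hw.1, hw.2⟩
    · intro i x hx hu
      have := (h x).2.2.2.2.2.2.2 i ⟨hx, hu⟩
      rw [mem_fut] at this
      obtain ⟨w, hw, hwx⟩ := this
      rw [mem_and, mem_fut_cd, mem_fut_cd] at hw
      exact ⟨w, hwx, hw.1, hw.2⟩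
  · intro h x
    refine ⟨fun i hx => ?_, fun i hx => ?_, fun i hx => ?_, fun i j => ?_, fun hx => ?_,
      fun i hx => ?_, fun i hx => ?_, fun i hx => ?_⟩
    · rw [mem_fut]; exact h.up i x hx
    · rw [mem_pst]; exact h.dn i x hx
    · rw [mem_pst, mem_fut] at hx
      obtain ⟨⟨y, hy, h1⟩, z, hz, h2⟩ := hx
      exact h.conv i y x z hy hz h1 h2
    · by_cases hij : i = j
      · rw [if_pos hij]; exact mem_top v x
      · rw [if_neg hij, mem_imp, mem_ctr]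
        exact fun hx => h.meet i j hij x hx.1 hx.2
    · rw [mem_fut]
      rintro ⟨y, hy, hxy⟩
      exact h.anti x y ((mem_ctr v x).1 hx) ((mem_ctr v y).1 hy) hxy
    · rw [mem_ctr, mem_pst, mem_fut]
      simp only [mem_ctr]
      exact h.near i x hx
    · obtain ⟨w, h1, h2, h3⟩ := h.clU i x hx.1 hx.2
      rw [mem_pst]
      refine ⟨w, ?_, h1⟩
      rw [mem_and, mem_pst_cu, mem_pst_cu]
      exact ⟨h2, h3⟩
    · obtain ⟨w, h1, h2, h3⟩ := h.clD i x hx.1 hx.2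
      rw [mem_fut]
      refine ⟨w, ?_, h1⟩
      rw [mem_and, mem_fut_cd, mem_fut_cd]
      exact ⟨h2, h3⟩

theorem pat_iff (x : Fin (n + 1) → ℝ) : x ∈ ev v pat ↔
    ∀ σ : Fin 4 → Bool, ∃ w, ∀ i, w ∉ colours v i ∧
      (σ i = true → ∃ u ∈ colours v i, Lt u w) ∧
      (σ i = false → ∃ u ∈ colours v i, Lt w u) := by
  simp only [pat, mem_allB, mem_smw, mem_all4, mem_and, mem_neg]
  have key : ∀ (σ : Fin 4 → Bool) (w : Fin (n + 1) → ℝ) (i : Fin 4),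
      (w ∈ ev v (if σ i = true then Fm.pst (col i) else Fm.fut (col i)) ↔
      (σ i = true → ∃ u ∈ colours v i, Lt u w) ∧
      (σ i = false → ∃ u ∈ colours v i, Lt w u)) := by
    intro σ w i
    cases hσ : σ i
    · rw [if_neg (by decide), mem_fut]
      exact ⟨fun h => ⟨fun h' => absurd h' (by decide), fun _ => h⟩, fun h => h.2 rfl⟩
    · rw [if_pos rfl, mem_pst]
      exact ⟨fun h => ⟨fun _ => h, fun h' => absurd h' (by decide)⟩, fun h => h.1 rfl⟩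
  constructor
  · intro h σ
    obtain ⟨w, hw⟩ := h (σ 0) (σ 1) (σ 2) (σ 3)
    refine ⟨w, fun i => ⟨(hw i).1, ?_⟩⟩
    have h2 := (hw i).2
    have e : (![σ 0, σ 1, σ 2, σ 3] : Fin 4 → Bool) = σ := by
      funext i; fin_cases i <;> rfl
    rw [e] at h2
    exact (key σ w i).1 h2
  · intro h a b c d
    obtain ⟨w, hw⟩ := h ![a, b, c, d]
    exact ⟨w, fun i => ⟨(hw i).1, (key _ w i).2 (hw i).2⟩⟩

theorem main_iff (x : Fin (n + 1) → ℝ) : x ∈ ev v main ↔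
    (∃ o, ∀ k, o ∈ colours v k) ∧ Cfg (colours v) ∧
    ∀ σ : Fin 4 → Bool, ∃ w, ∀ i, w ∉ colours v i ∧
      (σ i = true → ∃ u ∈ colours v i, Lt u w) ∧
      (σ i = false → ∃ u ∈ colours v i, Lt w u) := by
  rw [main, mem_and, mem_smw, mem_and, mem_evw, ax_iff, pat_iff]
  simp only [mem_ctr]
  exact Iff.rfl

end Pool.Agent.H181R3.Mink
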