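import Mathlib

/-!
Minkowski geometry: the Lorentz form, the causal cone and the timelike cone.
-/

set_option autoImplicit false

namespace Pool.Agent.H181R3.Mink

variable {n : ℕ}

/-- the Lorentz form -/
def B (u v : Fin (n + 1) → ℝ) : ℝ := u 0 * v 0 - ∑ i : Fin n, u i.succ * v i.succ

/-- causal future vectors -/
def J (u : Fin (n + 1) → ℝ) : Prop := 0 ≤ u 0 ∧ 0 ≤ B u u

/-- timelike future vectors -/
def T (u : Fin (n + 1) → ℝ) : Prop := 0 < u 0 ∧ 0 < B u u

/-- the strict causal order -/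
def Lt (x y : Fin (n + 1) → ℝ) : Prop := x ≠ y ∧ J (y - x)

theorem B_comm (u v : Fin (n + 1) → ℝ) : B u v = B v u := by
  simp only [B]
  rw [mul_comm]
  congr 1
  exact Finset.sum_congr rfl fun i _ => mul_comm _ _

theorem B_add_left (u v w : Fin (n + 1) → ℝ) : B (u + v) w = B u w + B v w := by
  simp only [B, Pi.add_apply, add_mul, Finset.sum_add_distrib]
  ring

theorem B_smul_left (c : ℝ) (u w : Fin (n + 1) → ℝ) : B (c • u) w = c * B u w := by
  simp only [B, Pi.smul_apply, smul_eq_mul, mul_assoc, mul_sub, Finset.mul_sum]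

theorem B_neg_left (u w : Fin (n + 1) → ℝ) : B (-u) w = -B u w := by
  have h := B_smul_left (-1) u w
  rw [neg_one_smul] at h
  rw [h]; ring

theorem B_sub_left (u v w : Fin (n + 1) → ℝ) : B (u - v) w = B u w - B v w := by
  rw [sub_eq_add_neg, B_add_left, B_neg_left]; ring

theorem B_add_right (u v w : Fin (n + 1) → ℝ) : B u (v + w) = B u v + B u w := by
  rw [B_comm, B_add_left, B_comm v, B_comm w]

theorem B_smul_right (c : ℝ) (u w : Fin (n + 1) → ℝ) : B u (c • w) = c * B u w := by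
  rw [B_comm, B_smul_left, B_comm w]

theorem B_neg_right (u w : Fin (n + 1) → ℝ) : B u (-w) = -B u w := by
  rw [B_comm, B_neg_left, B_comm w]

theorem B_sub_right (u v w : Fin (n + 1) → ℝ) : B u (v - w) = B u v - B u w := by
  rw [B_comm, B_sub_left, B_comm v, B_comm w]

theorem B_self (u : Fin (n + 1) → ℝ) : B u u = u 0 ^ 2 - ∑ i : Fin n, u i.succ ^ 2 := by
  simp only [B, sq]

/-- reverse Cauchy-Schwarz -/
theorem B_nonneg {u v : Fin (n + 1) → ℝ} (hu : J u) (hv : J v) : 0 ≤ B u v := by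
  obtain ⟨hu0, hu1⟩ := hu
  obtain ⟨hv0, hv1⟩ := hv
  rw [B_self] at hu1 hv1
  have hc := Finset.sum_mul_sq_le_sq_mul_sq Finset.univ (fun i : Fin n => u i.succ)
    (fun i : Fin n => v i.succ)
  have h1 : (0 : ℝ) ≤ ∑ i : Fin n, u i.succ ^ 2 := Finset.sum_nonneg fun i _ => sq_nonneg _
  have h2 : (0 : ℝ) ≤ ∑ i : Fin n, v i.succ ^ 2 := Finset.sum_nonneg fun i _ => sq_nonneg _
  have h3 : (∑ i : Fin n, u i.succ * v i.succ) ^ 2 ≤ (u 0 * v 0) ^ 2 := by
    refine hc.trans ?_
    rw [mul_pow]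
    exact mul_le_mul (by linarith) (by linarith) h2 (sq_nonneg _)
  have h4 := abs_le_of_sq_le_sq h3 (mul_nonneg hu0 hv0)
  simp only [B]
  linarith [le_abs_self (∑ i : Fin n, u i.succ * v i.succ)]

theorem J_add {u v : Fin (n + 1) → ℝ} (hu : J u) (hv : J v) : J (u + v) := by
  refine ⟨add_nonneg hu.1 hv.1, ?_⟩
  rw [B_add_left, B_add_right, B_add_right, B_comm v u]
  have := B_nonneg hu hv
  linarith [hu.2, hv.2]

theorem J_smul {u : Fin (n + 1) → ℝ} (hu : J u) {c : ℝ} (hc : 0 ≤ c) : J (c • u) := by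
  refine ⟨mul_nonneg hc hu.1, ?_⟩
  rw [B_smul_left, B_smul_right]
  exact mul_nonneg hc (mul_nonneg hc hu.2)

theorem T_smul {u : Fin (n + 1) → ℝ} (hu : T u) {c : ℝ} (hc : 0 < c) : T (c • u) := by
  refine ⟨mul_pos hc hu.1, ?_⟩
  rw [B_smul_left, B_smul_right]
  exact mul_pos hc (mul_pos hc hu.2)

theorem T.J {u : Fin (n + 1) → ℝ} (hu : T u) : J u := ⟨hu.1.le, hu.2.le⟩

theorem T.ne {u : Fin (n + 1) → ℝ} (hu : T u) : u ≠ 0 := by
  rintro rfl
  exact lt_irrefl _ hu.1

theorem J_pos {u : Fin (n + 1) → ℝ} (hu : J u) (h : u ≠ 0) : 0 < u 0 := by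
  rcases hu.1.lt_or_eq with h0 | h0
  · exact h0
  · exfalso
    apply h
    have h1 := hu.2
    rw [B_self, ← h0] at h1
    have h2 : ∑ i : Fin n, u i.succ ^ 2 = 0 :=
      le_antisymm (by linarith) (Finset.sum_nonneg fun i _ => sq_nonneg _)
    rw [Finset.sum_eq_zero_iff_of_nonneg (fun i _ => sq_nonneg _)] at h2
    ext i
    refine Fin.cases ?_ (fun i => ?_) i
    · exact h0.symm
    · have := h2 i (Finset.mem_univ _)
      simpa using this

theorem T_add {u v : Fin (n + 1) → ℝ} (hu : T u) (hv : J v) : T (u + v) := by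
  refine ⟨add_pos_of_pos_of_nonneg hu.1 hv.1, ?_⟩
  rw [B_add_left, B_add_right, B_add_right, B_comm v u]
  have := B_nonneg hu.J hv
  linarith [hu.2, hv.2]

theorem T_add' {u v : Fin (n + 1) → ℝ} (hu : J u) (hv : T v) : T (u + v) := by
  rw [add_comm]; exact T_add hv hu

/-- orthogonal causal vectors are parallel -/
theorem parallel {u v : Fin (n + 1) → ℝ} (hu : J u) (hv : J v) (hv0 : v ≠ 0) (h : B u v = 0) :
    u = (u 0 / v 0) • v := by
  have hp := J_pos hv hv0
  set c := u 0 / v 0 with hc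
  have hc0 : 0 ≤ c := div_nonneg hu.1 hp.le
  have hz0 : (u - c • v) 0 = 0 := by
    simp only [Pi.sub_apply, Pi.smul_apply, smul_eq_mul, hc]
    field_simp
    ring
  have hz : B (u - c • v) (u - c • v) = B u u + c ^ 2 * B v v := by
    simp only [B_sub_left, B_sub_right, B_smul_left, B_smul_right, B_comm v u, h]
    ring
  have hz1 : 0 ≤ B (u - c • v) (u - c • v) := by
    rw [hz]
    have := mul_nonneg (sq_nonneg c) hv.2
    linarith [hu.2]
  by_contra hne
  have h2 : u - c • v ≠ 0 := fun h3 => hne (sub_eq_zero.1 h3)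
  have h3 := J_pos (u := u - c • v) ⟨hz0.ge, hz1⟩ h2
  exact absurd hz0 h3.ne'

/-- a sum of two causal vectors which is not timelike -/
theorem sum_null {u v : Fin (n + 1) → ℝ} (hu : J u) (hv : J v) (hu0 : u ≠ 0) (hv0 : v ≠ 0)
    (h : ¬ T (u + v)) : B u u = 0 ∧ B v v = 0 ∧ B u v = 0 := by
  have h1 : ¬ 0 < B (u + v) (u + v) := fun h2 =>
    h ⟨add_pos (J_pos hu hu0) (J_pos hv hv0), h2⟩
  rw [B_add_left, B_add_right, B_add_right, B_comm v u] at h1
  have h2 := B_nonneg hu hv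
  have h3 := hu.2
  have h4 := hv.2
  push Not at h1
  refine ⟨?_, ?_, ?_⟩ <;> linarith

/-- the timelike cone is open -/
theorem T_push {d : Fin (n + 1) → ℝ} (hd : T d) (e : Fin (n + 1) → ℝ) :
    ∃ ε : ℝ, 0 < ε ∧ ε < 1 ∧ ∀ δ, 0 ≤ δ → δ ≤ ε → T (d - δ • e) := by
  have hc0 : Continuous fun δ : ℝ => (d - δ • e) 0 := by
    simp only [Pi.sub_apply, Pi.smul_apply, smul_eq_mul]
    fun_prop
  have hc1 : Continuous fun δ : ℝ => B (d - δ • e) (d - δ • e) := by
    have : (fun δ : ℝ => B (d - δ • e) (d - δ • e)) =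
        fun δ => B d d - 2 * δ * B d e + δ ^ 2 * B e e := by
      funext δ
      simp only [B_sub_left, B_sub_right, B_smul_left, B_smul_right, B_comm e d]
      ring
    rw [this]
    fun_prop
  have h0 : ∀ᶠ δ in nhds (0 : ℝ), 0 < (d - δ • e) 0 := by
    have := hc0.continuousAt (x := (0 : ℝ))
    exact this.eventually (lt_mem_nhds (by simpa using hd.1))
  have h1 : ∀ᶠ δ in nhds (0 : ℝ), 0 < B (d - δ • e) (d - δ • e) := by
    have := hc1.continuousAt (x := (0 : ℝ))
    exact this.eventually (lt_mem_nhds (by simpa using hd.2))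
  obtain ⟨ε, hε, hball⟩ := Metric.eventually_nhds_iff.1 (h0.and h1)
  refine ⟨min (ε / 2) (1 / 2), by positivity, by
    have := min_le_right (ε / 2) (1 / 2 : ℝ); linarith, fun δ hδ0 hδ => ?_⟩
  have h2 : dist δ 0 < ε := by
    rw [Real.dist_0_eq_abs, abs_of_nonneg hδ0]
    have := min_le_left (ε / 2) (1 / 2 : ℝ)
    linarith
  exact hball h2

/-- moving far along a null direction -/
theorem T_far {d v : Fin (n + 1) → ℝ} (hv : J v) (hv0 : v ≠ 0) (h : 0 < B d v) :
    ∃ s : ℝ, 0 < s ∧ T (d + s • v) := by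
  have hp := J_pos hv hv0
  refine ⟨|d 0| / v 0 + |B d d| / B d v + 1, by positivity, ?_, ?_⟩
  · simp only [Pi.add_apply, Pi.smul_apply, smul_eq_mul]
    have h1 : |B d d| / B d v * v 0 ≥ 0 := by positivity
    have h2 : |d 0| / v 0 * v 0 = |d 0| := by field_simp
    have h3 := neg_abs_le (d 0)
    nlinarith
  · set s := |d 0| / v 0 + |B d d| / B d v + 1 with hs
    have hs0 : 0 < s := by positivity
    have h1 : B (d + s • v) (d + s • v) = B d d + 2 * s * B d v + s ^ 2 * B v v := by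
      simp only [B_add_left, B_add_right, B_smul_left, B_smul_right, B_comm v d]
      ring
    rw [h1]
    have h2 : 0 ≤ s ^ 2 * B v v := mul_nonneg (sq_nonneg _) hv.2
    have h3 : s * B d v ≥ |B d d| + B d v := by
      rw [hs]
      have h4 : |B d d| / B d v * B d v = |B d d| := by field_simp
      have h5 : 0 ≤ |d 0| / v 0 * B d v := by positivity
      nlinarith
    have h6 := neg_abs_le (B d d)
    have h7 := abs_nonneg (B d d)
    nlinarith

theorem Lt.trans {x y z : Fin (n + 1) → ℝ} (h1 : Lt x y) (h2 : Lt y z) : Lt x z := by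
  have hxy : y - x ≠ 0 := sub_ne_zero.2 h1.1.symm
  have h3 : z - x = (z - y) + (y - x) := by abel
  have h4 : 0 < (z - x) 0 := by
    rw [h3]
    exact add_pos_of_nonneg_of_pos h2.2.1 (J_pos h1.2 hxy)
  refine ⟨?_, ?_⟩
  · rintro rfl
    simp at h4
  · rw [h3]
    exact J_add h2.2 h1.2

theorem Lt.pos {x y : Fin (n + 1) → ℝ} (h1 : Lt x y) : 0 < (y - x) 0 :=
  J_pos h1.2 (sub_ne_zero.2 h1.1.symm)

theorem Lt.irrefl {x : Fin (n + 1) → ℝ} (h1 : Lt x x) : False := h1.1 rfl

theorem Lt_of_T {x y : Fin (n + 1) → ℝ} (h : T (y - x)) : Lt x y :=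
  ⟨fun e => h.ne (by rw [e, sub_self]), h.J⟩

theorem Lt_neg {x y : Fin (n + 1) → ℝ} : Lt (-y) (-x) ↔ Lt x y := by
  have h : -x - -y = y - x := by abel
  simp only [Lt, h]
  constructor
  · rintro ⟨h1, h2⟩
    exact ⟨fun e => h1 (by rw [e]), h2⟩
  · rintro ⟨h1, h2⟩
    exact ⟨fun e => h1 (neg_injective e).symm, h2⟩

end Pool.Agent.H181R3.Mink
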