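import Pool.Agent.H181R3.Mink.Cfg

/-!
Null lines through the origin form a configuration; in the four dimensional space-time all the
sign patterns can be realised.
-/

set_option autoImplicit false

namespace Pool.Agent.H181R3.Mink

section general

variable {n : ℕ} {v : Fin 4 → Fin (n + 1) → ℝ}

/-- the null lines -/
def lines (v : Fin 4 → Fin (n + 1) → ℝ) (i : Fin 4) : Set (Fin (n + 1) → ℝ) :=
  {x | ∃ s : ℝ, x = s • v i}

theorem lines_neg (i : Fin 4) (x : Fin (n + 1) → ℝ) : -x ∈ lines v i ↔ x ∈ lines v i := by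
  constructor
  · rintro ⟨s, e⟩
    exact ⟨-s, by rw [neg_smul, ← e, neg_neg]⟩
  · rintro ⟨s, e⟩
    exact ⟨-s, by rw [neg_smul, ← e]⟩

theorem mem_zero (k : Fin 4) : (0 : Fin (n + 1) → ℝ) ∈ lines v k := ⟨0, by rw [zero_smul]⟩

theorem Lt_zero_smul {w : Fin (n + 1) → ℝ} (hJ : J w) (h0 : w ≠ 0) {s : ℝ} (hs : 0 < s) :
    Lt 0 (s • w) := by
  have := Lt_add (x := 0) hJ h0 hs
  rwa [zero_add] at this

theorem Lt_smul_smul {w : Fin (n + 1) → ℝ} (hJ : J w) (h0 : w ≠ 0) {s t : ℝ} (hs : s < t) :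
    Lt (s • w) (t • w) := by
  have := Lt_ray (x := 0) hJ h0 hs
  rwa [zero_add, zero_add] at this

variable (hJ : ∀ i, J (v i)) (h0 : ∀ i, v i ≠ 0) (hnull : ∀ i, B (v i) (v i) = 0)
  (hpos : ∀ i j, i ≠ j → 0 < B (v i) (v j))

include hnull hpos in
theorem eq_zero_of_two {i j : Fin 4} (hij : i ≠ j) {x : Fin (n + 1) → ℝ}
    (h1 : x ∈ lines v i) (h2 : x ∈ lines v j) : x = 0 := by
  obtain ⟨s, e1⟩ := h1
  obtain ⟨t, e2⟩ := h2
  have h3 : B x (v j) = 0 := by rw [e2, B_smul_left, hnull, mul_zero]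
  rw [e1, B_smul_left] at h3
  rcases mul_eq_zero.1 h3 with h4 | h4
  · rw [e1, h4, zero_smul]
  · exact absurd h4 (hpos i j hij).ne'

include hJ h0 hnull hpos in
theorem lines_clU (i : Fin 4) (x : Fin (n + 1) → ℝ) (hx : x ∉ lines v i)
    (h : ∃ u ∈ lines v i, Lt u x ∧ ∃ o, (∀ k, o ∈ lines v k) ∧ Lt o u) :
    ∃ w, Lt w x ∧ (∃ u ∈ lines v i, Lt u w ∧ ∃ o, (∀ k, o ∈ lines v k) ∧ Lt o u) ∧
      (∃ u ∈ lines v (i + 1), Lt u w ∧ ∃ o, (∀ k, o ∈ lines v k) ∧ Lt o u) := by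
  obtain ⟨u, ⟨s, e⟩, hux, o, ho, hou⟩ := h
  have ho0 : o = 0 := eq_zero_of_two hnull hpos (succ_ne 0) (ho 0) (ho (0 + 1))
  rw [ho0] at hou
  have hT : T x := by
    by_contra hT
    have hT' : ¬ T (x - 0) := by rwa [sub_zero]
    obtain ⟨_, r, _, e2⟩ := collinear hou hux hT'
    apply hx
    refine ⟨r * s + s, ?_⟩
    rw [sub_zero, e, smul_smul] at e2
    rw [add_smul, ← e2]; abel
  have hw : T ((1 / 2 : ℝ) • x) := T_smul hT (by norm_num)
  have hsub : ∀ j : Fin 4, ∃ u ∈ lines v j, Lt u ((1 / 2 : ℝ) • x) ∧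
      ∃ o, (∀ k, o ∈ lines v k) ∧ Lt o u := by
    intro j
    obtain ⟨ε, he0, _, hpush⟩ := T_push hw (v j)
    exact ⟨ε • v j, ⟨ε, rfl⟩, Lt_of_T (hpush ε he0.le le_rfl), 0, fun k => mem_zero k,
      Lt_zero_smul (hJ j) (h0 j) he0⟩
  refine ⟨(1 / 2 : ℝ) • x, Lt_of_T ?_, hsub i, hsub (i + 1)⟩
  have e : x - (1 / 2 : ℝ) • x = (1 / 2 : ℝ) • x := by
    ext k; simp only [Pi.sub_apply, Pi.smul_apply, smul_eq_mul]; ring
  rwa [e]

include hJ h0 hnull hpos in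
theorem cfg_lines : Cfg (lines v) := by
  have hz : ∀ x : Fin (n + 1) → ℝ, (∀ k, x ∈ lines v k) → x = 0 := fun x hx =>
    eq_zero_of_two hnull hpos (succ_ne 0) (hx 0) (hx (0 + 1))
  constructor
  · rintro i x ⟨s, rfl⟩
    exact ⟨(s + 1) • v i, ⟨_, rfl⟩, Lt_smul_smul (hJ i) (h0 i) (by linarith)⟩
  · rintro i x ⟨s, rfl⟩
    exact ⟨(s - 1) • v i, ⟨_, rfl⟩, Lt_smul_smul (hJ i) (h0 i) (by linarith)⟩
  · rintro i x y z ⟨s, rfl⟩ ⟨t, rfl⟩ hxy hyz
    have hT : ¬ T (t • v i - s • v i) := by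
      intro hT
      have h1 := hT.2
      rw [← sub_smul, B_smul_left, B_smul_right, hnull] at h1
      simp at h1
    obtain ⟨_, r, hr, e⟩ := collinear hxy hyz hT
    have hr1 : (1 + r) ≠ 0 := by positivity
    refine ⟨s + (1 + r)⁻¹ * (t - s), ?_⟩
    have e2 : (1 + r) • (y - s • v i) = (t - s) • v i := by
      rw [add_smul, one_smul, ← e, sub_smul]; abel
    rw [add_smul, mul_smul, ← e2, smul_smul, inv_mul_cancel₀ hr1, one_smul]; abel
  · intro i j hij x hx hx' k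
    rw [eq_zero_of_two hnull hpos hij hx hx']
    exact mem_zero k
  · intro x y hx hy hxy
    rw [hz x hx, hz y hy] at hxy
    exact hxy.irrefl
  · rintro i x ⟨s, rfl⟩
    rcases lt_trichotomy s 0 with hs | hs | hs
    · refine Or.inr (Or.inr ⟨0, fun k => mem_zero k, ?_⟩)
      have := Lt_smul_smul (hJ i) (h0 i) hs
      rwa [zero_smul] at this
    · exact Or.inl fun k => by rw [hs, zero_smul]; exact mem_zero k
    · exact Or.inr (Or.inl ⟨0, fun k => mem_zero k, Lt_zero_smul (hJ i) (h0 i) hs⟩)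
  · exact lines_clU hJ h0 hnull hpos
  · rintro i x hx ⟨u, hu, hux, o, ho, hou⟩
    obtain ⟨w, hw, ⟨u1, hu1, h1, o1, ho1, h2⟩, u2, hu2, h3, o2, ho2, h4⟩ :=
      lines_clU hJ h0 hnull hpos i (-x) (fun h => hx ((lines_neg i x).1 h))
        ⟨-u, (lines_neg i u).2 hu, Lt_neg.2 hux, -o, fun k => (lines_neg k o).2 (ho k),
          Lt_neg.2 hou⟩
    exact ⟨-w, Lt_neg_right.2 hw, ⟨-u1, (lines_neg _ _).2 hu1, Lt_neg.2 h1, -o1,
      fun k => (lines_neg _ _).2 (ho1 k), Lt_neg.2 h2⟩, -u2, (lines_neg _ _).2 hu2, Lt_neg.2 h3,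
      -o2, fun k => (lines_neg _ _).2 (ho2 k), Lt_neg.2 h4⟩

include hJ h0 hnull in
theorem lines_above {i : Fin 4} {w : Fin (n + 1) → ℝ} (h : 0 < B w (v i)) :
    w ∉ lines v i ∧ ∃ u ∈ lines v i, Lt u w := by
  constructor
  · rintro ⟨s, rfl⟩
    rw [B_smul_left, hnull, mul_zero] at h
    exact lt_irrefl _ h
  · obtain ⟨s, _, hT⟩ := T_far (hJ i) (h0 i) h
    refine ⟨(-s) • v i, ⟨_, rfl⟩, Lt_of_T ?_⟩
    have e : w - (-s) • v i = w + s • v i := by rw [neg_smul]; abel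
    rwa [e]

include hJ h0 hnull in
theorem lines_below {i : Fin 4} {w : Fin (n + 1) → ℝ} (h : B w (v i) < 0) :
    w ∉ lines v i ∧ ∃ u ∈ lines v i, Lt w u := by
  constructor
  · rintro ⟨s, rfl⟩
    rw [B_smul_left, hnull, mul_zero] at h
    exact lt_irrefl _ h
  · have h' : 0 < B (-w) (v i) := by rw [B_neg_left]; linarith
    obtain ⟨s, _, hT⟩ := T_far (hJ i) (h0 i) h'
    refine ⟨s • v i, ⟨_, rfl⟩, Lt_of_T ?_⟩
    have e : s • v i - w = -w + s • v i := by abel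
    rwa [e]

end general

theorem B4 (u v : Fin (3 + 1) → ℝ) : B u v = u 0 * v 0 - (u 1 * v 1 + u 2 * v 2 + u 3 * v 3) := by
  simp only [B, Fin.sum_univ_three]
  rfl

/-- four null vectors -/
def nv : Fin 4 → Fin (3 + 1) → ℝ := ![![1, 1, 0, 0], ![1, -1, 0, 0], ![1, 0, 1, 0], ![1, 0, 0, 1]]

theorem nv_zero (i : Fin 4) : nv i 0 = 1 := by
  fin_cases i <;> rfl

theorem nv_null (i : Fin 4) : B (nv i) (nv i) = 0 := by
  rw [B4]
  fin_cases i <;> simp [nv]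

theorem nv_J (i : Fin 4) : J (nv i) := ⟨by rw [nv_zero]; exact zero_le_one, (nv_null i).ge⟩

theorem nv_ne (i : Fin 4) : nv i ≠ 0 := by
  intro h
  have := nv_zero i
  rw [h] at this
  simp at this

theorem nv_pos (i j : Fin 4) (h : i ≠ j) : 0 < B (nv i) (nv j) := by
  rw [B4]
  fin_cases i <;> fin_cases j <;> first | exact absurd rfl h | simp [nv]

theorem pattern (s : Fin 4 → ℝ) : ∃ w : Fin (3 + 1) → ℝ, ∀ i, B w (nv i) = s i := by
  refine ⟨![(s 0 + s 1) / 2, (s 1 - s 0) / 2, (s 0 + s 1) / 2 - s 2, (s 0 + s 1) / 2 - s 3], ?_⟩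
  intro i
  rw [B4]
  fin_cases i <;> simp [nv] <;> ring

theorem cfg4 : ∃ c : Fin 4 → Set (Fin (3 + 1) → ℝ), Cfg c ∧ (∃ o, ∀ k, o ∈ c k) ∧
    ∀ σ : Fin 4 → Bool, ∃ w, ∀ i, w ∉ c i ∧ (σ i = true → ∃ u ∈ c i, Lt u w) ∧
      (σ i = false → ∃ u ∈ c i, Lt w u) := by
  refine ⟨lines nv, cfg_lines nv_J nv_ne nv_null nv_pos, ⟨0, fun k => mem_zero k⟩, ?_⟩
  intro σ
  obtain ⟨w, hw⟩ := pattern fun i => if σ i then 1 else -1
  refine ⟨w, fun i => ?_⟩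
  have h := hw i
  by_cases hs : σ i = true
  · rw [if_pos hs] at h
    obtain ⟨h1, h2⟩ := lines_above (v := nv) nv_J nv_ne nv_null (i := i) (w := w)
      (by rw [h]; exact one_pos)
    exact ⟨h1, fun _ => h2, fun h3 => absurd hs (by rw [h3]; decide)⟩
  · rw [if_neg hs] at h
    obtain ⟨h1, h2⟩ := lines_below (v := nv) nv_J nv_ne nv_null (i := i) (w := w)
      (by rw [h]; norm_num)
    exact ⟨h1, fun h3 => absurd h3 hs, fun _ => h2⟩

end Pool.Agent.H181R3.Mink
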