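import Pool.Agent.H181R3.Mink.Cfg

/-!
The colours of a configuration contain full null lines through the centres.
-/

set_option autoImplicit false

namespace Pool.Agent.H181R3.Mink

variable {n : ℕ} {c : Fin 4 → Set (Fin (n + 1) → ℝ)}

/-- the direction of colour `i` at a centre -/
theorem Cfg.line (h : Cfg c) {o : Fin (n + 1) → ℝ} (ho : ∀ k, o ∈ c k) (i : Fin 4) :
    ∃ v : Fin (n + 1) → ℝ, J v ∧ v ≠ 0 ∧ B v v = 0 ∧
      (∀ y ∈ c i, Lt o y → ∃ s : ℝ, 0 < s ∧ y = o + s • v) ∧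
      (∀ y ∈ c i, Lt y o → ∃ s : ℝ, 0 < s ∧ y = o + (-s) • v) := by
  obtain ⟨w, hw, hwo⟩ := h.dn i o (ho i)
  obtain ⟨u, hu, hou⟩ := h.up i o (ho i)
  have hup : ∀ y ∈ c i, Lt o y → ∃ s : ℝ, 0 < s ∧ y = o + s • (o - w) := by
    intro y hy hoy
    obtain ⟨_, s, hs, e⟩ := collinear hwo hoy (h.nt hw hy)
    exact ⟨s, hs, by rw [← e]; abel⟩
  refine ⟨o - w, hwo.2, sub_ne_zero.2 hwo.1.symm, (collinear hwo hou (h.nt hw hu)).1, hup, ?_⟩
  intro y hy hyo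
  obtain ⟨s, hs, e1⟩ := hup u hu hou
  obtain ⟨_, t, ht, e2⟩ := collinear hyo hou (h.nt hy hu)
  refine ⟨s / t, div_pos hs ht, ?_⟩
  have e3 : s • (o - w) = t • (o - y) := by
    rw [← e2, e1]; abel
  have e4 : (s / t) • (o - w) = o - y := by
    rw [div_eq_inv_mul, mul_smul, e3, smul_smul, inv_mul_cancel₀ ht.ne', one_smul]
  rw [neg_smul, e4]; abel

/-- two centres below a point on the same null line are equal -/
theorem Cfg.same (h : Cfg c) {a b k p : Fin (n + 1) → ℝ} (ha : ∀ j, a ∈ c j)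
    (hb : ∀ j, b ∈ c j) (hk : J k) (hk0 : k ≠ 0) {s t : ℝ} (e1 : a = p + s • k)
    (e2 : b = p + t • k) : a = b := by
  rcases lt_trichotomy s t with h1 | h1 | h1
  · exact absurd (by rw [e1, e2]; exact Lt_ray hk hk0 h1) (h.anti a b ha hb)
  · rw [e1, e2, h1]
  · exact absurd (by rw [e1, e2]; exact Lt_ray hk hk0 h1) (h.anti b a hb ha)

/-- no two colours on a ray from a centre -/
theorem Cfg.noTwo (h : Cfg c) {o u1 u2 k : Fin (n + 1) → ℝ} {i j : Fin 4} (hij : i ≠ j)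
    (ho : ∀ k, o ∈ c k) (hk : J k) (hk0 : k ≠ 0) (h1 : u1 ∈ c i) (h2 : u2 ∈ c j) {s t : ℝ}
    (hs : 0 < s) (ht : 0 < t) (e1 : u1 = o + s • k) (e2 : u2 = o + t • k) : False := by
  have hs' : Lt o u1 := by rw [e1]; exact Lt_add hk hk0 hs
  have ht' : Lt o u2 := by rw [e2]; exact Lt_add hk hk0 ht
  rcases lt_trichotomy s t with h3 | h3 | h3
  · have h4 : Lt u1 u2 := by rw [e1, e2]; exact Lt_ray hk hk0 h3
    exact h.anti o u1 ho (h.meet i j hij _ h1 (h.conv j _ _ _ (ho j) h2 hs' h4)) hs'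
  · have h4 : u1 = u2 := by rw [e1, e2, h3]
    rw [← h4] at h2
    exact h.anti o u1 ho (h.meet i j hij _ h1 h2) hs'
  · have h4 : Lt u2 u1 := by rw [e1, e2]; exact Lt_ray hk hk0 h3
    exact h.anti o u2 ho (h.meet i j hij _ (h.conv i _ _ _ (ho i) h1 ht' h4) h2) ht'

/-- the coloured rays are infinite -/
theorem Cfg.ray (h : Cfg c) {o v : Fin (n + 1) → ℝ} (ho : ∀ k, o ∈ c k) (i : Fin 4)
    (hv : J v) (hv0 : v ≠ 0)
    (hup : ∀ y ∈ c i, Lt o y → ∃ s : ℝ, 0 < s ∧ y = o + s • v) :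
    ∀ s : ℝ, 0 < s → o + s • v ∈ c i := by
  by_contra hcon
  push Not at hcon
  obtain ⟨s0, hs0, hns⟩ := hcon
  set S : Set ℝ := {s | 0 < s ∧ o + s • v ∈ c i} with hS
  have hbd : ∀ s ∈ S, s ≤ s0 := by
    intro s hs
    by_contra hlt
    push Not at hlt
    exact hns (h.conv i _ _ _ (ho i) hs.2 (Lt_add hv hv0 hs0) (Lt_ray hv hv0 hlt))
  obtain ⟨u, hu, hou⟩ := h.up i o (ho i)
  obtain ⟨s1, hs1, e1⟩ := hup u hu hou
  have hne : S.Nonempty := ⟨s1, hs1, e1 ▸ hu⟩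
  have hBdd : BddAbove S := ⟨s0, hbd⟩
  set m := sSup S with hm
  have hm0 : 0 < m := hs1.trans_le (le_csSup hBdd ⟨hs1, e1 ▸ hu⟩)
  have hin : ∀ s, 0 < s → s < m → o + s • v ∈ c i := by
    intro s hs hsm
    obtain ⟨t, ht, hst⟩ := exists_lt_of_lt_csSup hne hsm
    exact h.conv i _ _ _ (ho i) ht.2 (Lt_add hv hv0 hs) (Lt_ray hv hv0 hst)
  set w := o + m • v with hw
  have how : Lt o w := Lt_add hv hv0 hm0
  have hwc : w ∉ c i := by
    intro hwc
    obtain ⟨y, hy, hwy⟩ := h.up i w hwc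
    obtain ⟨t, ht, e⟩ := hup y hy (how.trans hwy)
    have h1 : t ≤ m := le_csSup hBdd ⟨ht, e ▸ hy⟩
    have h2 := hwy.pos
    have h3 : y - w = (t - m) • v := by
      rw [e, hw, sub_smul]; abel
    rw [h3, Pi.smul_apply, smul_eq_mul] at h2
    have h4 := J_pos hv hv0
    nlinarith
  have hnT : ∀ o', (∀ k, o' ∈ c k) → ¬ T (w - o') := by
    intro o' ho' hT
    obtain ⟨ε, he0, he1, hpush⟩ := T_push hT v
    have h1 := hpush (min ε (m / 2)) (by positivity) (min_le_left _ _)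
    have h2 : w - o' - (min ε (m / 2)) • v = (o + (m - min ε (m / 2)) • v) - o' := by
      rw [hw, sub_smul]; abel
    rw [h2] at h1
    refine h.nullU ho' (hin _ ?_ ?_) h1
    · have := min_le_right ε (m / 2); linarith
    · have : 0 < min ε (m / 2) := by positivity
      linarith
  obtain ⟨w', hw', ⟨u1, hu1, h1, o1, ho1, h2⟩, u2, hu2, h3, o2, ho2, h4⟩ :=
    h.clU i w hwc ⟨o + (m / 2) • v, hin _ (by positivity) (by linarith),
      Lt_ray hv hv0 (by linarith), o, ho, Lt_add hv hv0 (by positivity)⟩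
  have hK : J (w - w') := hw'.2
  have hK0 : w - w' ≠ 0 := sub_ne_zero.2 hw'.1.symm
  -- positions on the line
  have key : ∀ a b : Fin (n + 1) → ℝ, (∀ k, a ∈ c k) → Lt a b → Lt b w' →
      ∃ s t : ℝ, 0 < t ∧ a = w' + s • (w - w') ∧ b = a + t • (w - w') := by
    intro a b ha hab hbw
    obtain ⟨_, s, hs, e⟩ := collinear (hab.trans hbw) hw' (hnT a ha)
    have hnT' : ¬ T (w' - a) := by
      intro hT
      apply hnT a ha
      have : w - a = (w - w') + (w' - a) := by abel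
      rw [this]
      exact T_add' hw'.2 hT
    obtain ⟨_, t, ht, e'⟩ := collinear hab hbw hnT'
    have e2 : w' - a = s⁻¹ • (w - w') := by
      rw [e, smul_smul, inv_mul_cancel₀ hs.ne', one_smul]
    have e3 : (1 + t) • (b - a) = s⁻¹ • (w - w') := by
      rw [← e2, add_smul, one_smul, ← e']; abel
    have h1t : (0 : ℝ) < 1 + t := by linarith
    refine ⟨-s⁻¹, (1 + t)⁻¹ * s⁻¹, by positivity, ?_, ?_⟩
    · rw [neg_smul, ← e2]; abel
    · rw [mul_smul, ← e3, smul_smul, inv_mul_cancel₀ h1t.ne', one_smul]; abel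
  obtain ⟨s1, t1, ht1, ea1, eb1⟩ := key o1 u1 ho1 h2 h1
  obtain ⟨s2, t2, ht2, ea2, eb2⟩ := key o2 u2 ho2 h4 h3
  have e12 := h.same ho1 ho2 hK hK0 ea1 ea2
  rw [← e12] at eb2
  exact h.noTwo (succ_ne i) ho1 hK hK0 hu1 hu2 ht1 ht2 eb1 eb2

/-- full null lines -/
theorem Cfg.fullLine (h : Cfg c) {o : Fin (n + 1) → ℝ} (ho : ∀ k, o ∈ c k) (i : Fin 4) :
    ∃ v : Fin (n + 1) → ℝ, J v ∧ v ≠ 0 ∧ B v v = 0 ∧ (∀ s : ℝ, o + s • v ∈ c i) ∧
      ∀ y ∈ c i, (Lt o y ∨ Lt y o) → ∃ s : ℝ, y = o + s • v := by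
  obtain ⟨v, hv, hv0, hvv, hup, hdn⟩ := h.line ho i
  have h1 := h.ray ho i hv hv0 hup
  have h2 := h.neg.ray (o := -o) (v := v) (fun k => by simpa using ho k) i hv hv0 (by
    intro y hy hlt
    obtain ⟨s, hs, e⟩ := hdn (-y) hy (Lt_neg_left.1 hlt)
    refine ⟨s, hs, ?_⟩
    rw [← neg_neg y, e, neg_add, neg_smul, neg_neg])
  refine ⟨v, hv, hv0, hvv, ?_, ?_⟩
  · intro s
    rcases lt_trichotomy s 0 with hs | hs | hs
    · have := h2 (-s) (by linarith)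
      have e : -(-o + -s • v) = o + s • v := by
        rw [neg_add, neg_neg, neg_smul, neg_neg]
      simpa only [Set.mem_ofPred_eq, e] using this
    · rw [hs, zero_smul, add_zero]; exact ho i
    · exact h1 s hs
  · rintro y hy (hlt | hlt)
    · obtain ⟨s, _, e⟩ := hup y hy hlt
      exact ⟨s, e⟩
    · obtain ⟨s, _, e⟩ := hdn y hy hlt
      exact ⟨-s, e⟩

end Pool.Agent.H181R3.Mink
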