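import Pool.Agent.H181R3.Mink.Ray

/-!
In the three dimensional space-time a configuration does not satisfy all the sign patterns.
-/

set_option autoImplicit false

namespace Pool.Agent.H181R3.Mink

section general

variable {n : ℕ} {c : Fin 4 → Set (Fin (n + 1) → ℝ)}

theorem Cfg.orth (h : Cfg c) {o o' v : Fin (n + 1) → ℝ} (ho' : ∀ k, o' ∈ c k) {i : Fin 4}
    (hv : J v) (hv0 : v ≠ 0) (hline : ∀ s : ℝ, o + s • v ∈ c i) : B (o - o') v = 0 := by
  rcases lt_trichotomy (B (o - o') v) 0 with h1 | h1 | h1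
  · exfalso
    have h2 : 0 < B (o' - o) v := by
      rw [B_sub_left] at h1 ⊢; linarith
    obtain ⟨s, _, hT⟩ := T_far hv hv0 h2
    apply h.nullD ho' (hline (-s))
    have e : o' - (o + -s • v) = o' - o + s • v := by rw [neg_smul]; abel
    rwa [e]
  · exact h1
  · exfalso
    obtain ⟨s, _, hT⟩ := T_far hv hv0 h1
    apply h.nullU ho' (hline s)
    have e : o + s • v - o' = o - o' + s • v := by abel
    rwa [e]

/-- different colours have different directions -/
theorem Cfg.dir_pos (h : Cfg c) {o v v' : Fin (n + 1) → ℝ} (ho : ∀ k, o ∈ c k) {i j : Fin 4}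
    (hij : i ≠ j) (hv : J v) (hv0 : v ≠ 0) (hv' : J v') (hv0' : v' ≠ 0)
    (hline : ∀ s : ℝ, o + s • v ∈ c i) (hline' : ∀ s : ℝ, o + s • v' ∈ c j) : 0 < B v v' := by
  rcases (B_nonneg hv hv').lt_or_eq with h1 | h1
  · exact h1
  · exfalso
    have e := parallel hv hv' hv0' h1.symm
    have hpos : 0 < v 0 / v' 0 := div_pos (J_pos hv hv0) (J_pos hv' hv0')
    refine h.noTwo hij ho hv' hv0' (hline 1) (hline' 1) hpos one_pos ?_ rfl
    rw [one_smul, ← e]

end general

theorem B3 (u v : Fin (2 + 1) → ℝ) : B u v = u 0 * v 0 - (u 1 * v 1 + u 2 * v 2) := by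
  simp only [B, Fin.sum_univ_two]
  rfl

/-- the determinant -/
def det3 (a b c : Fin (2 + 1) → ℝ) : ℝ :=
  a 0 * (b 1 * c 2 - b 2 * c 1) - a 1 * (b 0 * c 2 - b 2 * c 0) + a 2 * (b 0 * c 1 - b 1 * c 0)

theorem det3_sq {a b c : Fin (2 + 1) → ℝ} (ha : B a a = 0) (hb : B b b = 0) (hc : B c c = 0) :
    det3 a b c ^ 2 = 2 * B a b * B a c * B b c := by
  have key : det3 a b c ^ 2 = B a a * (B b b * B c c - B b c ^ 2)
      - B a b * (B a b * B c c - B b c * B a c) + B a c * (B a b * B b c - B b b * B a c) := by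
    simp only [B3, det3]; ring
  rw [key, ha, hb, hc]; ring

theorem det3_ne {a b c : Fin (2 + 1) → ℝ} (ha : B a a = 0) (hb : B b b = 0) (hc : B c c = 0)
    (hab : 0 < B a b) (hac : 0 < B a c) (hbc : 0 < B b c) : det3 a b c ≠ 0 := by
  intro h
  have h1 := det3_sq ha hb hc
  rw [h] at h1
  have : 0 < 2 * B a b * B a c * B b c := by positivity
  linarith

theorem eq_zero_of_orth {a b c d : Fin (2 + 1) → ℝ} (h : det3 a b c ≠ 0) (h1 : B d a = 0)
    (h2 : B d b = 0) (h3 : B d c = 0) : d = 0 := by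
  rw [B3] at h1 h2 h3
  have e0 : det3 a b c * d 0 = 0 := by
    simp only [det3]
    linear_combination (b 1 * c 2 - b 2 * c 1) * h1 - (a 1 * c 2 - a 2 * c 1) * h2
      + (a 1 * b 2 - a 2 * b 1) * h3
  have e1 : det3 a b c * d 1 = 0 := by
    simp only [det3]
    linear_combination (b 0 * c 2 - b 2 * c 0) * h1 - (a 0 * c 2 - a 2 * c 0) * h2
      + (a 0 * b 2 - a 2 * b 0) * h3
  have e2 : det3 a b c * d 2 = 0 := by
    simp only [det3]
    linear_combination -(b 0 * c 1 - b 1 * c 0) * h1 + (a 0 * c 1 - a 1 * c 0) * h2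
      - (a 0 * b 1 - a 1 * b 0) * h3
  ext k
  fin_cases k
  · exact (mul_eq_zero.1 e0).resolve_left h
  · exact (mul_eq_zero.1 e1).resolve_left h
  · exact (mul_eq_zero.1 e2).resolve_left h

theorem relation (x a b c d : Fin (2 + 1) → ℝ) :
    det3 b c d * B x a - det3 a c d * B x b + det3 a b d * B x c - det3 a b c * B x d = 0 := by
  simp only [B3, det3]; ring

/-- no configuration in the three dimensional space-time has all the sign patterns -/
theorem no_cfg3 (c : Fin 4 → Set (Fin (2 + 1) → ℝ)) (h : Cfg c) (hp : ∃ o, ∀ k, o ∈ c k)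
    (hpat : ∀ σ : Fin 4 → Bool, ∃ w, ∀ i, w ∉ c i ∧ (σ i = true → ∃ u ∈ c i, Lt u w) ∧
      (σ i = false → ∃ u ∈ c i, Lt w u)) : False := by
  obtain ⟨o, ho⟩ := hp
  choose v hv hv0 hvv hline hcmp using fun i => h.fullLine ho i
  have hpos : ∀ i j, i ≠ j → 0 < B (v i) (v j) := fun i j hij =>
    h.dir_pos ho hij (hv i) (hv0 i) (hv j) (hv0 j) (hline i) (hline j)
  have hdet : ∀ i j k, i ≠ j → i ≠ k → j ≠ k → det3 (v i) (v j) (v k) ≠ 0 :=
    fun i j k h1 h2 h3 => det3_ne (hvv i) (hvv j) (hvv k) (hpos i j h1) (hpos i k h2)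
      (hpos j k h3)
  -- the centre is unique
  have huniq : ∀ o', (∀ k, o' ∈ c k) → o' = o := by
    intro o' ho'
    have h1 : ∀ i, B (o - o') (v i) = 0 := fun i => h.orth ho' (hv i) (hv0 i) (hline i)
    have h2 := eq_zero_of_orth (hdet 0 1 2 (by decide) (by decide) (by decide)) (h1 0) (h1 1)
      (h1 2)
    exact (sub_eq_zero.1 h2).symm
  -- the colours are lines
  have hcol : ∀ i, ∀ u ∈ c i, ∃ s : ℝ, u = o + s • v i := by
    intro i u hu
    rcases h.near i u hu with h1 | ⟨o', ho', hlt⟩ | ⟨o', ho', hlt⟩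
    · exact ⟨0, by rw [zero_smul, add_zero]; exact huniq u h1⟩
    · rw [huniq o' ho'] at hlt
      exact hcmp i u hu (Or.inl hlt)
    · rw [huniq o' ho'] at hlt
      exact hcmp i u hu (Or.inr hlt)
  have hup : ∀ i w, w ∉ c i → (∃ u ∈ c i, Lt u w) → 0 < B (w - o) (v i) := by
    rintro i w hw ⟨u, hu, hlt⟩
    obtain ⟨s, e⟩ := hcol i u hu
    have e1 : B (w - o) (v i) = B (w - u) (v i) := by
      rw [e]
      simp only [B_sub_left, B_add_left, B_smul_left, hvv i]; ring
    rcases (B_nonneg hlt.2 (hv i)).lt_or_eq with h1 | h1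
    · rwa [e1]
    · exfalso
      have h2 := parallel hlt.2 (hv i) (hv0 i) h1.symm
      apply hw
      have h3 : w = o + (s + (w - u) 0 / v i 0) • v i := by
        rw [add_smul, ← h2, e]; abel
      rw [h3]
      exact hline i _
  have hdn : ∀ i w, w ∉ c i → (∃ u ∈ c i, Lt w u) → B (w - o) (v i) < 0 := by
    rintro i w hw ⟨u, hu, hlt⟩
    obtain ⟨s, e⟩ := hcol i u hu
    have e1 : B (w - o) (v i) = -B (u - w) (v i) := by
      rw [e]
      simp only [B_sub_left, B_add_left, B_smul_left, hvv i]; ring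
    rcases (B_nonneg hlt.2 (hv i)).lt_or_eq with h1 | h1
    · rw [e1]; linarith
    · exfalso
      have h2 := parallel hlt.2 (hv i) (hv0 i) h1.symm
      apply hw
      have h3 : w = o + (s - (u - w) 0 / v i 0) • v i := by
        rw [sub_smul, ← h2, e]; abel
      rw [h3]
      exact hline i _
  -- the linear relation
  let l : Fin 4 → ℝ := ![det3 (v 1) (v 2) (v 3), -det3 (v 0) (v 2) (v 3),
    det3 (v 0) (v 1) (v 3), -det3 (v 0) (v 1) (v 2)]
  obtain ⟨w, hw⟩ := hpat (fun i => decide (0 < l i))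
  have hterm : ∀ i, 0 ≤ l i * B (w - o) (v i) := by
    intro i
    obtain ⟨h1, h2, h3⟩ := hw i
    by_cases hl : 0 < l i
    · exact mul_nonneg hl.le (hup i w h1 (h2 (by simpa using hl))).le
    · exact mul_nonneg_of_nonpos_of_nonpos (not_lt.1 hl)
        (hdn i w h1 (h3 (by simpa using hl))).le
  have h3 : l 3 * B (w - o) (v 3) ≠ 0 := by
    refine mul_ne_zero ?_ ?_
    · exact neg_ne_zero.2 (hdet 0 1 2 (by decide) (by decide) (by decide))
    · obtain ⟨h1, h2, h3⟩ := hw 3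
      by_cases hl : 0 < l 3
      · exact (hup 3 w h1 (h2 (by simpa using hl))).ne'
      · exact (hdn 3 w h1 (h3 (by simpa using hl))).ne
  have hrel := relation (w - o) (v 0) (v 1) (v 2) (v 3)
  have hsum : l 0 * B (w - o) (v 0) + l 1 * B (w - o) (v 1) + l 2 * B (w - o) (v 2) +
      l 3 * B (w - o) (v 3) = 0 := by
    show det3 (v 1) (v 2) (v 3) * B (w - o) (v 0) + -det3 (v 0) (v 2) (v 3) * B (w - o) (v 1) +
      det3 (v 0) (v 1) (v 3) * B (w - o) (v 2) + -det3 (v 0) (v 1) (v 2) * B (w - o) (v 3) = 0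
    linarith
  have h4 := hterm 0
  have h5 := hterm 1
  have h6 := hterm 2
  have h7 := lt_of_le_of_ne (hterm 3) h3.symm
  linarith

end Pool.Agent.H181R3.Mink
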